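import Pool.Agent.UP.Four
import Pool.Agent.SU.Bound

/-!
Class number one and period length at most five, or seven.
-/

namespace Pool.Agent.UP

open scoped NumberField
open Real Function Pool.Agent.LibH4 Pool.Agent.Lib_helper5 CFO

/-- the eighty-one fields -/
def l81 : List ℕ := [2, 3, 5, 6, 7, 11, 13, 14, 17, 21, 23, 29, 33, 37, 38, 41, 47, 53, 61, 62, 69, 77, 83, 89, 93,
  101, 109, 113, 133, 137, 141, 149, 157, 167, 173, 181, 197, 213, 227, 237, 269, 293, 317,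
  373, 389, 397, 398, 413, 437, 453, 461, 509, 557, 573, 653, 677, 717, 773, 797, 853, 941,
  997, 1013, 1077, 1133, 1253, 1293, 1397, 1493, 1757, 1877, 1997, 2309, 2477, 2621, 2693,
  3053, 3533, 3797, 4253, 4973]

lemma l81_eq : ∀ d : ℕ, d ∈ l81 ↔
    (d ∈ rdl 1 ∨ d ∈ rdl 2 ∨ d ∈ discs ∨ (d ∈ rdl 4 ∨ d ∈ P4.l8) ∨ d ∈ P5.l12 ∨ d ∈ P7.l17) := by
  have h1 : ∀ d ∈ l81,
      (d ∈ rdl 1 ∨ d ∈ rdl 2 ∨ d ∈ discs ∨ (d ∈ rdl 4 ∨ d ∈ P4.l8) ∨ d ∈ P5.l12 ∨ d ∈ P7.l17) := by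
    decide +kernel
  have h2 : ∀ d ∈ rdl 1, d ∈ l81 := by decide +kernel
  have h3 : ∀ d ∈ rdl 2, d ∈ l81 := by decide +kernel
  have h4 : ∀ d ∈ discs, d ∈ l81 := by decide +kernel
  have h5 : ∀ d ∈ rdl 4, d ∈ l81 := by decide +kernel
  have h6 : ∀ d ∈ P4.l8, d ∈ l81 := by decide +kernel
  have h7 : ∀ d ∈ P5.l12, d ∈ l81 := by decide +kernel
  have h8 : ∀ d ∈ P7.l17, d ∈ l81 := by decide +kernel
  intro d
  constructor
  · exact h1 d
  · rintro (h | h | h | (h | h) | h | h)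
    · exact h2 d h
    · exact h3 d h
    · exact h4 d h
    · exact h5 d h
    · exact h6 d h
    · exact h7 d h
    · exact h8 d h

lemma l81_chk : ∀ d ∈ l81, 1 < d ∧ d < 5041 ∧
    ((List.range 71).all fun x => decide (x < 2) || decide (¬ x * x ∣ d)) = true := by
  decide +kernel

lemma l81_sq (d : ℕ) (h : d ∈ l81) : 1 < d ∧ Squarefree d := by
  obtain ⟨h1, h2, h3⟩ := l81_chk d h
  exact ⟨h1, sqf_of_chk (by omega) h2 h3⟩

/-- the period length is positive -/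
theorem period_pos (d : ℕ) (h1 : 1 < d) (hsq : Squarefree d) :
    0 < minimalPeriod gsh (gsh (omg d)) := by
  obtain ⟨m, B, s, x, c, h, hx1, hm, hB, -⟩ := exists_data d h1 hsq
  rw [← hx1]
  have hns : ¬ IsSquare (B ^ 2 + 4 * m) := by
    rintro ⟨z, hz⟩
    have h2 : s ^ 2 = (z : ℝ) ^ 2 := by
      rw [h.sq, hz]
      push_cast
      ring
    rcases sq_eq_sq_iff_eq_or_eq_neg.1 h2 with h3 | h3
    · exact h.irr ⟨z, by rw [h3]; push_cast; rfl⟩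
    · exact h.irr ⟨-z, by rw [h3]; push_cast; rfl⟩
  obtain ⟨X, Y, hXY, hY⟩ := Pell.exists_of_not_isSquare (d := B ^ 2 + 4 * m) (by positivity) hns
  refine SU.unit_per h hm hB (X := 2 * X) (Y := 2 * |Y|) ?_ (Or.inl ?_)
  · have := Int.one_le_abs hY
    omega
  · rw [mul_pow, mul_pow, sq_abs]
    linear_combination 4 * hXY

/-- **period lengths up to five, and seven** -/
theorem short_iff (d : ℕ) (h1 : 1 < d) (hsq : Squarefree d) :
    ((minimalPeriod gsh (gsh (omg d)) ≤ 5 ∨ minimalPeriod gsh (gsh (omg d)) = 7) ∧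
      UniqueFactorizationMonoid (𝓞 (KQ d))) ↔ d ∈ l81 := by
  rw [l81_eq, ← one_iff d h1 hsq, ← two_iff d h1 hsq, ← period_three_iff d h1 hsq,
    ← four_iff d h1 hsq, ← five d h1 hsq, ← seven d h1 hsq]
  constructor
  · rintro ⟨h2, h4⟩
    have h0 := period_pos d h1 hsq
    have h5 : minimalPeriod gsh (gsh (omg d)) = 1 ∨ minimalPeriod gsh (gsh (omg d)) = 2 ∨
      minimalPeriod gsh (gsh (omg d)) = 3 ∨ minimalPeriod gsh (gsh (omg d)) = 4 ∨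
      minimalPeriod gsh (gsh (omg d)) = 5 ∨ minimalPeriod gsh (gsh (omg d)) = 7 := by omega
    rcases h5 with h5 | h5 | h5 | h5 | h5 | h5
    · exact Or.inl ⟨h5, h4⟩
    · exact Or.inr (Or.inl ⟨h5, h4⟩)
    · exact Or.inr (Or.inr (Or.inl ⟨h5, h4⟩))
    · exact Or.inr (Or.inr (Or.inr (Or.inl ⟨h5, h4⟩)))
    · exact Or.inr (Or.inr (Or.inr (Or.inr (Or.inl ⟨h5, h4⟩))))
    · exact Or.inr (Or.inr (Or.inr (Or.inr (Or.inr ⟨h5, h4⟩))))
  · rintro (⟨h, h4⟩ | ⟨h, h4⟩ | ⟨h, h4⟩ | ⟨h, h4⟩ | ⟨h, h4⟩ | ⟨h, h4⟩)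
    all_goals exact ⟨by omega, h4⟩

end Pool.Agent.UP
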