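import Pool.Agent.UP.Odd
import Pool.Agent.Lib_helper4.P4Final
import Pool.Agent.Lib_helper5.K4.Final
import Pool.Agent.P4G.NoGhost

/-!
Class number one and period length four.
-/

namespace Pool.Agent.UP

open scoped NumberField
open Real Function Pool.Agent.LibH4 Pool.Agent.Lib_helper5 CFO

/-- a prime below `m`, different from `r`, with a root -/
def smp (u b s a : ℕ) : Bool :=
  [2, 3, 5, 7, 11, 13, 17].any fun p =>
    decide (p < u * b + s) && decide (p ≠ 1 + a * u) &&
      (List.range p).any fun x =>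
        decide ((x * x + (u + a * (u * b + s)) * x) % p = (u * b + s) % p)

lemma smp_all : ((List.range 20).all fun u => (List.range 20).all fun b =>
    (List.range 20).all fun s => (List.range 20).all fun a =>
      !(decide (1 ≤ u) && decide (1 ≤ b) && decide (1 ≤ s) && decide (s * a = b + u) &&
        decide (u * b + s ≤ 19) && decide (a % 4 = 2) && decide (6 ≤ a) &&
        decide ((u + a * (u * b + s)) % 2 = 1)) || smp u b s a) = true := by
  decide +kernel

/-- no field with small `m` -/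
lemma small_two {a b B : ℕ} {m r : ℤ} (h : E4.Par a b B m r)
    [IsDomain (QuadraticAlgebra ℤ m (B : ℤ))]
    [UniqueFactorizationMonoid (QuadraticAlgebra ℤ m (B : ℤ))] (hB : B % 2 = 1)
    (ha2 : a % 4 = 2) (ha3 : 6 ≤ a) (h19 : m ≤ 19) : False := by
  obtain ⟨u, s, hu, hs, he, hm, hr, hB'⟩ := P4.params h
  have hb := h.hb
  have h19' : u * b + s ≤ 19 := by rw [hm] at h19; exact_mod_cast h19
  have hub : b + u ≤ u * b + 1 := by nlinarith
  have hsa : s * a ≤ 19 := by omega
  have hs6 : s * 6 ≤ s * a := Nat.mul_le_mul_left s ha3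
  have ha19 : a ≤ s * a := Nat.le_mul_of_pos_left a hs
  have h1 := smp_all
  rw [List.all_eq_true] at h1
  have h2 := h1 u (List.mem_range.2 (by nlinarith))
  rw [List.all_eq_true] at h2
  have h3 := h2 b (List.mem_range.2 (by nlinarith))
  rw [List.all_eq_true] at h3
  have h4 := h3 s (List.mem_range.2 (by omega))
  rw [List.all_eq_true] at h4
  have h5 := h4 a (List.mem_range.2 (by omega))
  have hcond : (decide (1 ≤ u) && decide (1 ≤ b) && decide (1 ≤ s) && decide (s * a = b + u) &&
        decide (u * b + s ≤ 19) && decide (a % 4 = 2) && decide (6 ≤ a) &&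
        decide ((u + a * (u * b + s)) % 2 = 1)) = true := by
    simp only [Bool.and_eq_true, decide_eq_true_eq]
    refine ⟨⟨⟨⟨⟨⟨⟨hu, hb⟩, hs⟩, he⟩, h19'⟩, ha2⟩, ha3⟩, ?_⟩
    rw [← hB']
    exact hB
  rw [hcond, Bool.not_true, Bool.false_or] at h5
  unfold smp at h5
  rw [List.any_eq_true] at h5
  obtain ⟨p, hp, h6⟩ := h5
  rw [Bool.and_eq_true, Bool.and_eq_true, decide_eq_true_eq, decide_eq_true_eq,
    List.any_eq_true] at h6
  obtain ⟨⟨h7, h8⟩, x, -, hx⟩ := h6
  rw [decide_eq_true_eq] at hx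
  have hpp : p.Prime := by
    simp only [List.mem_cons, List.not_mem_nil, or_false] at hp
    rcases hp with rfl | rfl | rfl | rfl | rfl | rfl | rfl <;> norm_num
  have h9 := P4.eq_of_root h hpp (by rw [hm]; exact_mod_cast h7) (x : ℤ) (by
    rw [hm]
    have h10 := (Nat.modEq_iff_dvd (n := p) (a := u * b + s) (b := x * x + B * x)).1 (by
      rw [hB']; exact hx.symm)
    have h11 : ((x * x + B * x : ℕ) : ℤ) - ((u * b + s : ℕ) : ℤ) =
      (x : ℤ) ^ 2 + B * x - ((u * b + s : ℕ) : ℤ) := by push_cast; ring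
    rw [← h11]
    exact h10)
  rw [hr] at h9
  apply h8
  exact_mod_cast h9.symm

/-- **no field with `a ≡ 2` modulo four, `a ≥ 6`** -/
theorem no_two {a b B : ℕ} {m r : ℤ} (h : E4.Par a b B m r)
    [IsDomain (QuadraticAlgebra ℤ m (B : ℤ))]
    [UniqueFactorizationMonoid (QuadraticAlgebra ℤ m (B : ℤ))] (hB : B % 2 = 1)
    (ha2 : a % 4 = 2) (ha3 : 6 ≤ a) : False := by
  by_cases h19 : m ≤ 19
  · exact small_two h hB ha2 ha3 h19
  · push Not at h19
    by_cases hm2 : m % 2 = 1
    · exact P4G.no_ghost h hm2 hB ha2 ha3 h19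
    · have hr := P4.eq_of_root h Nat.prime_two (by push_cast; linarith) 0 (by
        push_cast
        omega)
      have e1 := h.e1
      obtain ⟨k, hk⟩ : ∃ k, a = 2 * k := ⟨a / 2, by omega⟩
      have : r = 1 + 2 * (B * k - m * a * k) := by
        rw [e1, hk]; push_cast; ring
      push_cast at hr
      omega

/-- **period length four** -/
theorem four_iff (d : ℕ) (h1 : 1 < d) (hsq : Squarefree d) :
    (minimalPeriod gsh (gsh (omg d)) = 4 ∧ UniqueFactorizationMonoid (𝓞 (KQ d))) ↔
      (d ∈ rdl 4 ∨ d ∈ P4.l8) := by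
  have old := P4.four_iff (fun a b B m r h hm hB ha2 ha3 h19 _ _ =>
      Pool.Agent.Lib_helper5.K4.elim4 h hm hB ha2 ha3 h19) d h1 hsq
  constructor
  · rintro ⟨hper, hU⟩
    obtain ⟨a, b, B, m, r, hP, hfl, ⟨h4, hd, hB⟩ | ⟨h4, hd, hB⟩⟩ := exists_par_four d h1 hsq hper
    · by_cases ha : a % 4 = 2
      · by_cases ha6 : 6 ≤ a
        · exfalso
          obtain ⟨e⟩ := exists_equiv_QI hd (by exact_mod_cast hB)
          have e' := e.symm.trans (eqvO hsq h1)
          have i1 : IsDomain (QuadraticAlgebra ℤ m (B : ℤ)) := e'.toMulEquiv.isDomain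
          have i2 : UniqueFactorizationMonoid (QuadraticAlgebra ℤ m (B : ℤ)) :=
            e'.symm.toMulEquiv.uniqueFactorizationMonoid hU
          exact no_two hP hB ha ha6
        · left
          have ha' : a = 2 := by omega
          subst ha'
          have e1 := hP.e1
          have e2 := hP.e2
          push_cast at e1 e2
          refine rd_period d 4 h1 hsq (B + 1) (-r) (by omega) ⟨-(4 * ((b : ℤ) + 1)), ?_⟩ ?_ hper hU
          · linear_combination (-4) * e2 - 4 * e1
          · rw [hd]; linear_combination e1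
      · right
        refine old.1 ⟨Or.inl ⟨h4, ?_⟩, hper, hU⟩
        rw [← hfl]
        omega
    · left
      obtain ⟨e⟩ := exists_equiv_QI_even hd h4 (by exact_mod_cast hB)
      have e' := e.symm.trans (eqvO hsq h1)
      have i1 : IsDomain (QuadraticAlgebra ℤ m (B : ℤ)) := e'.toMulEquiv.isDomain
      have i2 : UniqueFactorizationMonoid (QuadraticAlgebra ℤ m (B : ℤ)) :=
        e'.symm.toMulEquiv.uniqueFactorizationMonoid hU
      have ha := P4.B_even hP hB
      subst ha
      have e1 := hP.e1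
      have e2 := hP.e2
      obtain ⟨k, rfl⟩ : ∃ k, B = 2 * k := ⟨B / 2, by omega⟩
      push_cast at e1 e2 hd
      refine rd_period d 4 h1 hsq (k + 1) (-r) (by omega) ⟨-(2 * ((b : ℤ) + 2)), ?_⟩ ?_ hper hU
      · linear_combination (-2) * e2 - 4 * e1
      · have h5 : 4 * (d : ℤ) = 4 * (((k : ℤ) + 1) ^ 2 + -r) := by
          linear_combination hd + 4 * e1
        linarith
  · rintro (h | h)
    · obtain ⟨-, -, h3, h4⟩ := rdl_spec h
      exact ⟨h3, h4⟩
    · exact (old.2 h).2

end Pool.Agent.UP
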