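import Pool.Agent.UP.Low
import Pool.Agent.Lib_helper4.P5Final
import Pool.Agent.Lib_helper5.K5.Final
import Pool.Agent.Lib_helper4.P7Final
import Pool.Agent.Lib_helper4.S7.P7All

/-!
Class number one and period length one, three, five or seven.
-/

namespace Pool.Agent.UP

open scoped NumberField
open Real Function Pool.Agent.LibH4 Pool.Agent.Lib_helper5 CFO

theorem five (d : ℕ) (h1 : 1 < d) (hsq : Squarefree d) :
    (minimalPeriod gsh (gsh (omg d)) = 5 ∧ UniqueFactorizationMonoid (𝓞 (KQ d))) ↔ d ∈ P5.l12 :=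
  P5.five_iff (fun a b B m m' hP hm hB _ _ h1 h2 =>
    Pool.Agent.Lib_helper5.K5.elim5 a b B m m' hP hm hB h1 h2) d h1 hsq

theorem seven (d : ℕ) (h1 : 1 < d) (hsq : Squarefree d) :
    (minimalPeriod gsh (gsh (omg d)) = 7 ∧ UniqueFactorizationMonoid (𝓞 (KQ d))) ↔ d ∈ P7.l17 :=
  P7.seven_iff (fun _ _ _ _ _ _ _ hP hm hB _ _ h1 h2 h3 =>
    S7.elim7 hP hm hB h1 h2 h3) d h1 hsq

/-- the forty-seven fields of odd period length at most seven -/
def l47 : List ℕ := [2, 5, 13, 17, 29, 37, 41, 53, 61, 89, 101, 109, 113, 137, 149, 157, 173, 181,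
  197, 269, 293, 317, 373, 389, 397, 461, 509, 557, 653, 677, 773, 797, 853, 941, 997, 1013, 1493,
  1877, 1997, 2309, 2477, 2621, 2693, 3533, 3797, 4253, 4973]

lemma l47_eq : ∀ d : ℕ, d ∈ l47 ↔ (d ∈ rdl 1 ∨ d ∈ discs ∨ d ∈ P5.l12 ∨ d ∈ P7.l17) := by
  have h1 : ∀ d ∈ l47, (d ∈ rdl 1 ∨ d ∈ discs ∨ d ∈ P5.l12 ∨ d ∈ P7.l17) := by decide +kernel
  have h2 : ∀ d ∈ rdl 1, d ∈ l47 := by decide +kernel
  have h3 : ∀ d ∈ discs, d ∈ l47 := by decide +kernel
  have h4 : ∀ d ∈ P5.l12, d ∈ l47 := by decide +kernel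
  have h5 : ∀ d ∈ P7.l17, d ∈ l47 := by decide +kernel
  intro d
  constructor
  · exact h1 d
  · rintro (h | h | h | h)
    · exact h2 d h
    · exact h3 d h
    · exact h4 d h
    · exact h5 d h

/-- a squarefreeness test -/
lemma sqf_of_chk {d : ℕ} (h0 : 0 < d) (hd : d < 5041)
    (h : ((List.range 71).all fun x => decide (x < 2) || decide (¬ x * x ∣ d)) = true) :
    Squarefree d := by
  rw [List.all_eq_true] at h
  intro x hx
  rw [Nat.isUnit_iff]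
  by_contra hne
  have hx1 : x ≠ 0 := by
    rintro rfl
    simp only [mul_zero, zero_dvd_iff] at hx
    omega
  have hle : x * x ≤ d := Nat.le_of_dvd h0 hx
  have hx50 : x < 71 := by nlinarith
  have := h x (List.mem_range.2 hx50)
  rw [Bool.or_eq_true, decide_eq_true_eq, decide_eq_true_eq] at this
  rcases this with h3 | h3
  · omega
  · exact h3 hx

lemma l47_chk : ∀ d ∈ l47, 1 < d ∧ d < 5041 ∧
    ((List.range 71).all fun x => decide (x < 2) || decide (¬ x * x ∣ d)) = true := by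
  decide +kernel

lemma l47_sq (d : ℕ) (h : d ∈ l47) : 1 < d ∧ Squarefree d := by
  obtain ⟨h1, h2, h3⟩ := l47_chk d h
  exact ⟨h1, sqf_of_chk (by omega) h2 h3⟩

/-- **odd period lengths up to seven** -/
theorem odd_iff (d : ℕ) (h1 : 1 < d) (hsq : Squarefree d) :
    ((minimalPeriod gsh (gsh (omg d)) % 2 = 1 ∧ minimalPeriod gsh (gsh (omg d)) ≤ 7) ∧
      UniqueFactorizationMonoid (𝓞 (KQ d))) ↔ d ∈ l47 := by
  rw [l47_eq, ← one_iff d h1 hsq, ← period_three_iff d h1 hsq, ← five d h1 hsq,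
    ← seven d h1 hsq]
  constructor
  · rintro ⟨⟨h2, h3⟩, h4⟩
    have h5 : minimalPeriod gsh (gsh (omg d)) = 1 ∨ minimalPeriod gsh (gsh (omg d)) = 3 ∨
      minimalPeriod gsh (gsh (omg d)) = 5 ∨ minimalPeriod gsh (gsh (omg d)) = 7 := by omega
    rcases h5 with h5 | h5 | h5 | h5
    · exact Or.inl ⟨h5, h4⟩
    · exact Or.inr (Or.inl ⟨h5, h4⟩)
    · exact Or.inr (Or.inr (Or.inl ⟨h5, h4⟩))
    · exact Or.inr (Or.inr (Or.inr ⟨h5, h4⟩))
  · rintro (⟨h, h4⟩ | ⟨h, h4⟩ | ⟨h, h4⟩ | ⟨h, h4⟩)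
    all_goals exact ⟨⟨by rw [h], by omega⟩, h4⟩

end Pool.Agent.UP
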